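import Pool.Agent.Y448.U.RpA

set_option autoImplicit false

/-!
# Y202-U, RP: pointwise reverse Poincare inequality of all orders
-/

namespace Pool.Agent.Y448.U

open Finset Pool.Agent.W788.NV Pool.Agent.Y202.U

/-! ## rates -/

section rates

variable {V : Type} [Fintype V] [DecidableEq V] {G : SimpleGraph V} {q : ℕ} {θ : ℝ} {Δ : ℕ}

theorem mr_nonneg (h : SA G q θ Δ) (e : (V × Fin q) ⊕ (V × V)) : 0 ≤ mrate G q θ e :=
  (p_tot V G q θ (by have := h.q2; omega) h.t0.le h.t1 h.d1).1 e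

omit [DecidableEq V] in
theorem mr_row (h : SA G q θ Δ) (v : V) :
    ∑ b, mrate G q θ (Sum.inr (v, b) : (V × Fin q) ⊕ (V × V)) ≤ 1 := by
  classical
  have h1 : ∀ b, mrate G q θ (Sum.inr (v, b) : (V × Fin q) ⊕ (V × V)) =
      if G.Adj v b then (1 - θ) / (dg G v : ℝ) else 0 := by
    intro b
    simp only [mrate]
  rw [Finset.sum_congr rfl fun b _ => h1 b, ← Finset.sum_filter, Finset.sum_const, nsmul_eq_mul]
  have h2 : ((univ.filter fun b => G.Adj v b).card : ℝ) = (dg G v : ℝ) := by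
    unfold dg
    congr
  rw [h2]
  have h3 : (0 : ℝ) < (dg G v : ℝ) := by
    have := h.d1 v
    exact_mod_cast this
  rw [mul_div_cancel₀ _ h3.ne']
  linarith [h.t0]

omit [DecidableEq V] in
theorem mr_col (h : SA G q θ Δ) (b : V) :
    ∑ v, mrate G q θ (Sum.inr (v, b) : (V × Fin q) ⊕ (V × V)) ≤ Δ := by
  classical
  have h1 : ∀ v, mrate G q θ (Sum.inr (v, b) : (V × Fin q) ⊕ (V × V)) ≤
      if G.Adj b v then (1 : ℝ) else 0 := by
    intro v
    simp only [mrate]
    have h3 : (1 : ℝ) ≤ (dg G v : ℝ) := by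
      have := h.d1 v
      exact_mod_cast this
    by_cases hv : G.Adj v b
    · rw [if_pos hv, if_pos hv.symm, div_le_one (by linarith)]
      linarith [h.t0]
    · rw [if_neg hv, if_neg fun hh => hv hh.symm]
  refine (Finset.sum_le_sum fun v _ => h1 v).trans ?_
  rw [← Finset.sum_filter, Finset.sum_const, nsmul_eq_mul, mul_one]
  have h2 : ((univ.filter fun v => G.Adj b v).card : ℝ) = (dg G b : ℝ) := by
    unfold dg
    congr
  rw [h2]
  exact_mod_cast h.dD b

end rates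

/-! ## the inequality for one set -/

theorem gf_sq {S ι : Type} [Fintype ι] (r : ι → ℝ) (m : ι → S → S) (F : S → ℝ) (x : S) :
    gf r m (fun y => F y ^ 2) x = 2 * F x * gf r m F x + gam r m F x := by
  unfold gf gam
  rw [Finset.mul_sum, ← Finset.sum_add_distrib]
  exact Finset.sum_congr rfl fun e _ => by ring

theorem cross {lam a T J1 J2 : ℝ} (hl : 0 < lam) :
    2 * a * (T + J1 - J2) ≤ (1 + lam) * a ^ 2 + T ^ 2 + 2 / lam * (J1 ^ 2 + J2 ^ 2) := by
  have h1 : 0 ≤ (a - T) ^ 2 := sq_nonneg _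
  have h2 : 0 ≤ lam * (a - (J1 - J2) / lam) ^ 2 := by positivity
  have h3 : lam * (a - (J1 - J2) / lam) ^ 2 = lam * a ^ 2 - 2 * a * (J1 - J2) +
      (J1 - J2) ^ 2 / lam := by
    field_simp
    ring
  have h4 : (J1 - J2) ^ 2 / lam ≤ 2 / lam * (J1 ^ 2 + J2 ^ 2) := by
    rw [div_mul_eq_mul_div]
    apply div_le_div_of_nonneg_right _ hl.le
    nlinarith [sq_nonneg (J1 + J2)]
  nlinarith

section one

variable {V : Type} [Fintype V] [DecidableEq V] {G : SimpleGraph V} {q : ℕ} {θ : ℝ} {Δ : ℕ}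

/-- the carre du champ term -/
theorem gam_ge (h0 : S_C0) (h : SA G q θ Δ) (S : Finset V) (g : (V → Fin q) → ℝ)
    (x : V → Fin q) :
    θ / 4 * ∑ v ∈ Sᶜ, Gm (insert v S) g x ≤
      ∑ p : (V → Fin q) × (V → Fin q),
        gam (mrate G q θ) (act (V := V) (q := q)) (Dl S p.1 p.2 g) x := by
  have hq : (0 : ℝ) < q := by
    have := h.q2
    have h1 : 0 < q := by omega
    exact_mod_cast h1
  have h1 : ∀ p : (V → Fin q) × (V → Fin q), ∑ v ∈ Sᶜ, ∑ d : Fin q, θ / q *
      (Dl S p.1 p.2 g (Function.update x v d) - Dl S p.1 p.2 g x) ^ 2 ≤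
      gam (mrate G q θ) (act (V := V) (q := q)) (Dl S p.1 p.2 g) x := by
    intro p
    unfold gam
    rw [Fintype.sum_sum_type, Fintype.sum_prod_type]
    have h2 : 0 ≤ ∑ e : V × V, mrate G q θ (Sum.inr e : (V × Fin q) ⊕ (V × V)) *
        (Dl S p.1 p.2 g (act (Sum.inr e) x) - Dl S p.1 p.2 g x) ^ 2 :=
      Finset.sum_nonneg fun e _ => mul_nonneg (mr_nonneg h _) (sq_nonneg _)
    refine le_trans ?_ (le_add_of_nonneg_right h2)
    refine (Finset.sum_le_sum_of_subset_of_nonneg (Finset.subset_univ _) ?_)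
    intro v _ _
    exact Finset.sum_nonneg fun d _ => mul_nonneg (mr_nonneg h (Sum.inl (v, d))) (sq_nonneg _)
  refine le_trans ?_ (Finset.sum_le_sum fun p _ => h1 p)
  rw [Finset.sum_comm, Finset.mul_sum]
  refine Finset.sum_le_sum fun v hv => ?_
  have hv' : v ∉ S := Finset.mem_compl.1 hv
  have h3 := noise_le h0 hv' g x
  have h4 : ∑ p : (V → Fin q) × (V → Fin q), ∑ d : Fin q, θ / q *
      (Dl S p.1 p.2 g (Function.update x v d) - Dl S p.1 p.2 g x) ^ 2 =
      θ / q * ∑ p : (V → Fin q) × (V → Fin q), ∑ d : Fin q,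
      (Dl S p.1 p.2 g (Function.update x v d) - Dl S p.1 p.2 g x) ^ 2 := by
    rw [Finset.mul_sum]
    exact Finset.sum_congr rfl fun p _ => (Finset.mul_sum _ _ _).symm
  rw [h4]
  have h5 : 0 ≤ θ / (4 * q) := div_nonneg h.t0.le (by positivity)
  have h6 := mul_le_mul_of_nonneg_left h3 h5
  have e1 : θ / (4 * q) * (q * Gm (insert v S) g x) = θ / 4 * Gm (insert v S) g x := by
    field_simp
  rw [e1] at h6
  refine h6.trans (le_of_eq ?_)
  field_simp

/-- the inequality for one set -/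
theorem one_set (h0 : S_C0) (h1 : S_C1) (h : SA G q θ Δ) {lam : ℝ} (hl : 0 < lam)
    (hlq : 4 * (q : ℝ) ^ 3 / lam = θ / 8) (S : Finset V) (g : (V → Fin q) → ℝ)
    (x : V → Fin q) :
    ∑ p : (V → Fin q) × (V → Fin q), (2 * Dl S p.1 p.2 g x *
      (Dl S p.1 p.2 (gf (mrate G q θ) (act (V := V) (q := q)) g) x -
        gf (mrate G q θ) (act (V := V) (q := q)) (Dl S p.1 p.2 g) x) -
      gam (mrate G q θ) (act (V := V) (q := q)) (Dl S p.1 p.2 g) x) ≤
    (1 + lam) * Δ * (S.card * Gm S g x) +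
      ∑ b ∈ S, ∑ v ∈ Sᶜ, mrate G q θ (Sum.inr (v, b) : (V × Fin q) ⊕ (V × V)) *
        Gm (insert v (S.erase b)) g x -
      θ / 8 * ∑ v ∈ Sᶜ, Gm (insert v S) g x := by
  set m : V → V → ℝ := fun v b => mrate G q θ (Sum.inr (v, b) : (V × Fin q) ⊕ (V × V)) with hm
  have hm0 : ∀ v b, 0 ≤ m v b := fun v b => mr_nonneg h _
  let T : V → V → (V → Fin q) × (V → Fin q) → ℝ := fun b v p =>
    Dl (insert v (S.erase b)) (Function.update p.1 v (p.1 b)) (Function.update p.2 v (p.2 b)) g x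
  let J1 : V → V → (V → Fin q) × (V → Fin q) → ℝ := fun b v p =>
    Dl (insert v S) (Function.update p.1 v (p.1 b))
      (Function.update (Function.update p.2 b (x b)) v (x b)) g x
  let J2 : V → V → (V → Fin q) × (V → Fin q) → ℝ := fun b v p =>
    Dl (insert v S) (Function.update (Function.update p.1 b (p.2 b)) v (p.2 b))
      (Function.update (Function.update p.2 b (x b)) v (x b)) g x
  -- pointwise in `p`
  have hp : ∀ p : (V → Fin q) × (V → Fin q), 2 * Dl S p.1 p.2 g x *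
      (Dl S p.1 p.2 (gf (mrate G q θ) (act (V := V) (q := q)) g) x -
        gf (mrate G q θ) (act (V := V) (q := q)) (Dl S p.1 p.2 g) x) ≤
      ∑ b ∈ S, ∑ v ∈ Sᶜ, m v b * ((1 + lam) * (Dl S p.1 p.2 g x) ^ 2 + (T b v p) ^ 2 +
        2 / lam * ((J1 b v p) ^ 2 + (J2 b v p) ^ 2)) := by
    intro p
    have hc := h1 V G q θ Δ h S p.1 p.2 g x
    have e1 : Dl S p.1 p.2 (gf (mrate G q θ) (act (V := V) (q := q)) g) x -
        gf (mrate G q θ) (act (V := V) (q := q)) (Dl S p.1 p.2 g) x =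
        -(S.card * Dl S p.1 p.2 g x) +
          ∑ b ∈ S, ∑ v ∈ Sᶜ, m v b * (T b v p + J1 b v p - J2 b v p) := by
      rw [hc]
      ring
    rw [e1, mul_add]
    have e2 : 2 * Dl S p.1 p.2 g x * -(S.card * Dl S p.1 p.2 g x) ≤ 0 := by
      have : 0 ≤ (S.card : ℝ) * (Dl S p.1 p.2 g x) ^ 2 := by positivity
      nlinarith
    have e3 : 2 * Dl S p.1 p.2 g x *
        ∑ b ∈ S, ∑ v ∈ Sᶜ, m v b * (T b v p + J1 b v p - J2 b v p) ≤
        ∑ b ∈ S, ∑ v ∈ Sᶜ, m v b * ((1 + lam) * (Dl S p.1 p.2 g x) ^ 2 + (T b v p) ^ 2 +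
        2 / lam * ((J1 b v p) ^ 2 + (J2 b v p) ^ 2)) := by
      rw [Finset.mul_sum]
      refine Finset.sum_le_sum fun b _ => ?_
      rw [Finset.mul_sum]
      refine Finset.sum_le_sum fun v _ => ?_
      have := mul_le_mul_of_nonneg_left
        (cross (a := Dl S p.1 p.2 g x) (T := T b v p) (J1 := J1 b v p) (J2 := J2 b v p) hl)
        (hm0 v b)
      linarith
    linarith
  -- the sum over `p`
  have hsum : ∑ p : (V → Fin q) × (V → Fin q), ∑ b ∈ S, ∑ v ∈ Sᶜ,
      m v b * ((1 + lam) * (Dl S p.1 p.2 g x) ^ 2 + (T b v p) ^ 2 +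
        2 / lam * ((J1 b v p) ^ 2 + (J2 b v p) ^ 2)) ≤
      ∑ b ∈ S, ∑ v ∈ Sᶜ, m v b * ((1 + lam) * Gm S g x + Gm (insert v (S.erase b)) g x +
        θ / 8 * Gm (insert v S) g x) := by
    rw [Finset.sum_comm]
    refine Finset.sum_le_sum fun b hb => ?_
    rw [Finset.sum_comm]
    refine Finset.sum_le_sum fun v hv => ?_
    have hv' : v ∉ S := Finset.mem_compl.1 hv
    rw [← Finset.mul_sum]
    apply mul_le_mul_of_nonneg_left _ (hm0 v b)
    rw [Finset.sum_add_distrib, Finset.sum_add_distrib, ← Finset.mul_sum, ← Finset.mul_sum,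
      Finset.sum_add_distrib]
    have f1 : ∑ p : (V → Fin q) × (V → Fin q), (T b v p) ^ 2 ≤ Gm (insert v (S.erase b)) g x :=
      transport_le h0 hb hv' g x
    have f2 : ∑ p : (V → Fin q) × (V → Fin q), (J1 b v p) ^ 2 ≤
      (q : ℝ) ^ 3 * Gm (insert v S) g x := J1_le hb hv' g x
    have f3 : ∑ p : (V → Fin q) × (V → Fin q), (J2 b v p) ^ 2 ≤
      (q : ℝ) ^ 3 * Gm (insert v S) g x := J2_le hb hv' g x
    have f4 : 2 / lam * (∑ p : (V → Fin q) × (V → Fin q), (J1 b v p) ^ 2 +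
        ∑ p : (V → Fin q) × (V → Fin q), (J2 b v p) ^ 2) ≤ θ / 8 * Gm (insert v S) g x := by
      have f5 : 2 / lam * (∑ p : (V → Fin q) × (V → Fin q), (J1 b v p) ^ 2 +
        ∑ p : (V → Fin q) × (V → Fin q), (J2 b v p) ^ 2) ≤
        2 / lam * ((q : ℝ) ^ 3 * Gm (insert v S) g x + (q : ℝ) ^ 3 * Gm (insert v S) g x) :=
        mul_le_mul_of_nonneg_left (add_le_add f2 f3) (by positivity)
      refine f5.trans (le_of_eq ?_)
      rw [← hlq]
      ring
    have f6 : ∑ p : (V → Fin q) × (V → Fin q), (Dl S p.1 p.2 g x) ^ 2 = Gm S g x := rfl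
    rw [f6]
    linarith
  -- the three parts
  have hG0 : ∀ S : Finset V, 0 ≤ Gm S g x := fun S => Gm_nonneg S g x
  have g1 : ∑ b ∈ S, ∑ v ∈ Sᶜ, m v b * ((1 + lam) * Gm S g x) ≤
      (1 + lam) * Δ * (S.card * Gm S g x) := by
    have : ∀ b ∈ S, ∑ v ∈ Sᶜ, m v b * ((1 + lam) * Gm S g x) ≤
        Δ * ((1 + lam) * Gm S g x) := by
      intro b _
      rw [← Finset.sum_mul]
      apply mul_le_mul_of_nonneg_right _ (mul_nonneg (by linarith) (hG0 S))
      refine le_trans ?_ (mr_col h b)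
      exact Finset.sum_le_sum_of_subset_of_nonneg (Finset.subset_univ _) fun v _ _ => hm0 v b
    refine (Finset.sum_le_sum this).trans (le_of_eq ?_)
    rw [Finset.sum_const, nsmul_eq_mul]
    ring
  have g2 : ∑ b ∈ S, ∑ v ∈ Sᶜ, m v b * (θ / 8 * Gm (insert v S) g x) ≤
      θ / 8 * ∑ v ∈ Sᶜ, Gm (insert v S) g x := by
    rw [Finset.sum_comm, Finset.mul_sum]
    refine Finset.sum_le_sum fun v _ => ?_
    rw [← Finset.sum_mul]
    have h2 : ∑ b ∈ S, m v b ≤ 1 := by
      refine le_trans ?_ (mr_row h v)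
      exact Finset.sum_le_sum_of_subset_of_nonneg (Finset.subset_univ _) fun b _ _ => hm0 v b
    have h3 : 0 ≤ θ / 8 * Gm (insert v S) g x := mul_nonneg (by linarith [h.t0]) (hG0 _)
    nlinarith
  have g3 : ∑ b ∈ S, ∑ v ∈ Sᶜ, m v b * ((1 + lam) * Gm S g x + Gm (insert v (S.erase b)) g x +
        θ / 8 * Gm (insert v S) g x) =
      ∑ b ∈ S, ∑ v ∈ Sᶜ, m v b * ((1 + lam) * Gm S g x) +
      ∑ b ∈ S, ∑ v ∈ Sᶜ, m v b * Gm (insert v (S.erase b)) g x +
      ∑ b ∈ S, ∑ v ∈ Sᶜ, m v b * (θ / 8 * Gm (insert v S) g x) := by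
    rw [← Finset.sum_add_distrib, ← Finset.sum_add_distrib]
    refine Finset.sum_congr rfl fun b _ => ?_
    rw [← Finset.sum_add_distrib, ← Finset.sum_add_distrib]
    refine Finset.sum_congr rfl fun v _ => ?_
    ring
  have g4 := gam_ge h0 h S g x
  have g5 : ∑ p : (V → Fin q) × (V → Fin q), 2 * Dl S p.1 p.2 g x *
      (Dl S p.1 p.2 (gf (mrate G q θ) (act (V := V) (q := q)) g) x -
        gf (mrate G q θ) (act (V := V) (q := q)) (Dl S p.1 p.2 g) x) ≤
      (1 + lam) * Δ * (S.card * Gm S g x) +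
      ∑ b ∈ S, ∑ v ∈ Sᶜ, m v b * Gm (insert v (S.erase b)) g x +
      θ / 8 * ∑ v ∈ Sᶜ, Gm (insert v S) g x := by
    refine (Finset.sum_le_sum fun p _ => hp p).trans (hsum.trans ?_)
    rw [g3]
    linarith
  rw [Finset.sum_sub_distrib]
  linarith

end one

/-! ## the flow -/

theorem gf_sum {S ι κ : Type} [Fintype ι] [Fintype κ] (r : ι → ℝ) (m : ι → S → S) (c : κ → ℝ)
    (H : κ → S → ℝ) (x : S) :
    gf r m (fun z => ∑ k, c k * H k z) x = ∑ k, c k * gf r m (H k) x := by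
  unfold gf
  have e1 : ∀ e, r e * (∑ k, c k * H k (m e x) - ∑ k, c k * H k x) =
      ∑ k, c k * (r e * (H k (m e x) - H k x)) := by
    intro e
    rw [← Finset.sum_sub_distrib, Finset.mul_sum]
    exact Finset.sum_congr rfl fun k _ => by ring
  rw [Finset.sum_congr rfl fun e _ => e1 e, Finset.sum_comm]
  exact Finset.sum_congr rfl fun k _ => (Finset.mul_sum _ _ _).symm

/-- derivative along the backward semigroup -/
theorem sg_flow {S ι : Type} [Fintype S] [DecidableEq S] [Fintype ι] (r : ι → ℝ)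
    (m : ι → S → S) (H : ℝ → S → ℝ) (H' : S → ℝ) (x : S) (u T : ℝ)
    (hH : ∀ z, HasDerivAt (fun u => H u z) (H' z) u) :
    HasDerivAt (fun u => sg r m (T - u) (H u) x)
      (sg r m (T - u) (fun z => H' z - gf r m (H u) z) x) u := by
  let δ : S → S → ℝ := fun z y => if y = z then 1 else 0
  have hK : ∀ K : S → ℝ, K = fun y => ∑ z, K z * δ z y := by
    intro K
    funext y
    simp [δ]
  have e1 : ∀ (t : ℝ) (K : S → ℝ), sg r m t K x = ∑ z, K z * sg r m t (δ z) x := by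
    intro t K
    conv_lhs => rw [hK K]
    exact p_mk.lin S ι S r m K δ x t
  have e2 : ∀ (t : ℝ) (K : S → ℝ), sg r m t (gf r m K) x =
      ∑ z, K z * sg r m t (gf r m (δ z)) x := by
    intro t K
    have h1 : gf r m K = fun y => ∑ z, K z * gf r m (δ z) y := by
      funext y
      conv_lhs => rw [hK K]
      exact gf_sum r m K δ y
    rw [h1]
    exact p_mk.lin S ι S r m K (fun z => gf r m (δ z)) x t
  have h1 : ∀ z, HasDerivAt (fun u => sg r m (T - u) (δ z) x)
      (-sg r m (T - u) (gf r m (δ z)) x) u := by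
    intro z
    have h2 := (p_mk.deriv S ι r m (δ z) x (T - u)).comp u
      (((hasDerivAt_id' u).const_sub T : HasDerivAt (fun v : ℝ => T - v) (-1) u))
    exact h2.congr_deriv (by ring)
  have h2 : HasDerivAt (fun u => ∑ z, H u z * sg r m (T - u) (δ z) x)
      (∑ z, (H' z * sg r m (T - u) (δ z) x + H u z * (-sg r m (T - u) (gf r m (δ z)) x))) u :=
    HasDerivAt.fun_sum fun z _ => (hH z).mul (h1 z)
  have h3 : (fun u => sg r m (T - u) (H u) x) =
      fun u => ∑ z, H u z * sg r m (T - u) (δ z) x := by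
    funext u
    exact e1 _ _
  rw [h3]
  refine h2.congr_deriv ?_
  rw [e1 (T - u) (fun z => H' z - gf r m (H u) z)]
  have h4 := e1 (T - u) (gf r m (H u))
  have h5 := e2 (T - u) (H u)
  simp only [sub_mul, mul_neg]
  rw [Finset.sum_sub_distrib, ← h4, h5, Finset.sum_add_distrib, Finset.sum_neg_distrib]
  ring

section flow

variable {V : Type} [Fintype V] [DecidableEq V] {G : SimpleGraph V} {q : ℕ} {θ : ℝ} {Δ : ℕ}

theorem Dl_deriv (S : Finset V) (c c' : V → Fin q) (f : (V → Fin q) → ℝ) (z : V → Fin q)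
    (u : ℝ) : HasDerivAt (fun u => Dl S c c' (pt G q θ u f) z)
      (Dl S c c' (gf (mrate G q θ) (act (V := V) (q := q)) (pt G q θ u f)) z) u := by
  unfold Dl
  apply HasDerivAt.fun_sum
  intro T _
  have h1 := p_mk.deriv (V → Fin q) ((V × Fin q) ⊕ (V × V)) (mrate G q θ)
    (act (V := V) (q := q)) f (mix S T c c' z) u
  rw [p_mk.comm] at h1
  exact h1.const_mul _

/-- the total inequality -/
theorem total (h0 : S_C0) (h1 : S_C1) (h : SA G q θ Δ) {lam : ℝ} (hl : 0 < lam)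
    (hlq : 4 * (q : ℝ) ^ 3 / lam = θ / 8) {κ y : ℝ} (hκ : κ * (2 + Δ + lam * Δ) ≤ θ / 8)
    (hy0 : 0 ≤ y) (hy : y ≤ κ) (g : (V → Fin q) → ℝ) (x : V → Fin q) :
    ∑ S : Finset V, (((S.card : ℝ) * y ^ (S.card - 1) * κ) * Gm S g x +
      y ^ S.card * ∑ p : (V → Fin q) × (V → Fin q), 2 * Dl S p.1 p.2 g x *
        Dl S p.1 p.2 (gf (mrate G q θ) (act (V := V) (q := q)) g) x) -
      gf (mrate G q θ) (act (V := V) (q := q)) (fun z => ∑ S : Finset V, y ^ S.card * Gm S g z) x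
      ≤ 0 := by
  have e1 : gf (mrate G q θ) (act (V := V) (q := q))
      (fun z => ∑ S : Finset V, y ^ S.card * Gm S g z) x =
      ∑ S : Finset V, y ^ S.card * ∑ p : (V → Fin q) × (V → Fin q),
        (2 * Dl S p.1 p.2 g x * gf (mrate G q θ) (act (V := V) (q := q)) (Dl S p.1 p.2 g) x +
        gam (mrate G q θ) (act (V := V) (q := q)) (Dl S p.1 p.2 g) x) := by
    rw [gf_sum]
    refine Finset.sum_congr rfl fun S _ => ?_
    congr 1
    have h2 : (fun z => Gm S g z) = fun z => ∑ p : (V → Fin q) × (V → Fin q),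
        (1 : ℝ) * (fun z => (Dl S p.1 p.2 g z) ^ 2) z := by
      funext z
      simp [Gm]
    show gf _ _ (fun z => Gm S g z) x = _
    rw [h2, gf_sum]
    refine Finset.sum_congr rfl fun p _ => ?_
    rw [one_mul, gf_sq]
  rw [e1, ← Finset.sum_sub_distrib]
  have e2 : ∀ S : Finset V, (((S.card : ℝ) * y ^ (S.card - 1) * κ) * Gm S g x +
      y ^ S.card * ∑ p : (V → Fin q) × (V → Fin q), 2 * Dl S p.1 p.2 g x *
        Dl S p.1 p.2 (gf (mrate G q θ) (act (V := V) (q := q)) g) x) -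
      y ^ S.card * ∑ p : (V → Fin q) × (V → Fin q),
        (2 * Dl S p.1 p.2 g x * gf (mrate G q θ) (act (V := V) (q := q)) (Dl S p.1 p.2 g) x +
        gam (mrate G q θ) (act (V := V) (q := q)) (Dl S p.1 p.2 g) x) ≤
      ((S.card : ℝ) * y ^ (S.card - 1) * κ) * Gm S g x +
      y ^ S.card * ((1 + lam) * Δ * (S.card * Gm S g x) +
      ∑ b ∈ S, ∑ v ∈ Sᶜ, mrate G q θ (Sum.inr (v, b) : (V × Fin q) ⊕ (V × V)) *
        Gm (insert v (S.erase b)) g x -
      θ / 8 * ∑ v ∈ Sᶜ, Gm (insert v S) g x) := by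
    intro S
    have h2 := mul_le_mul_of_nonneg_left (one_set h0 h1 h hl hlq S g x) (pow_nonneg hy0 S.card)
    have h3 : y ^ S.card * ∑ p : (V → Fin q) × (V → Fin q), 2 * Dl S p.1 p.2 g x *
        Dl S p.1 p.2 (gf (mrate G q θ) (act (V := V) (q := q)) g) x -
      y ^ S.card * ∑ p : (V → Fin q) × (V → Fin q),
        (2 * Dl S p.1 p.2 g x * gf (mrate G q θ) (act (V := V) (q := q)) (Dl S p.1 p.2 g) x +
        gam (mrate G q θ) (act (V := V) (q := q)) (Dl S p.1 p.2 g) x) =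
      y ^ S.card * ∑ p : (V → Fin q) × (V → Fin q), (2 * Dl S p.1 p.2 g x *
      (Dl S p.1 p.2 (gf (mrate G q θ) (act (V := V) (q := q)) g) x -
        gf (mrate G q θ) (act (V := V) (q := q)) (Dl S p.1 p.2 g) x) -
      gam (mrate G q θ) (act (V := V) (q := q)) (Dl S p.1 p.2 g) x) := by
      rw [← mul_sub, ← Finset.sum_sub_distrib]
      congr 1
      exact Finset.sum_congr rfl fun p _ => by ring
    linarith
  refine (Finset.sum_le_sum fun S _ => e2 S).trans ?_
  have e3 : ∑ S : Finset V, (((S.card : ℝ) * y ^ (S.card - 1) * κ) * Gm S g x +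
      y ^ S.card * ((1 + lam) * Δ * (S.card * Gm S g x) +
      ∑ b ∈ S, ∑ v ∈ Sᶜ, mrate G q θ (Sum.inr (v, b) : (V × Fin q) ⊕ (V × V)) *
        Gm (insert v (S.erase b)) g x -
      θ / 8 * ∑ v ∈ Sᶜ, Gm (insert v S) g x)) =
      ∑ S : Finset V, ((S.card : ℝ) * y ^ (S.card - 1) * κ) * Gm S g x +
      ∑ S : Finset V, y ^ S.card * ((1 + lam) * Δ * (S.card * Gm S g x)) +
      ∑ S : Finset V, y ^ S.card * ∑ b ∈ S, ∑ v ∈ Sᶜ,
        mrate G q θ (Sum.inr (v, b) : (V × Fin q) ⊕ (V × V)) * Gm (insert v (S.erase b)) g x -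
      θ / 8 * ∑ S : Finset V, y ^ S.card * ∑ v ∈ Sᶜ, Gm (insert v S) g x := by
    rw [Finset.mul_sum, ← Finset.sum_add_distrib, ← Finset.sum_add_distrib,
      ← Finset.sum_sub_distrib]
    exact Finset.sum_congr rfl fun S _ => by ring
  rw [e3, reind1 y (fun S => Gm S g x), reind2 y
    (fun v b => mrate G q θ (Sum.inr (v, b) : (V × Fin q) ⊕ (V × V))) (fun S => Gm S g x)]
  have e4 : ∑ S : Finset V, y ^ S.card * ∑ v ∈ S, ∑ b ∈ Sᶜ,
      mrate G q θ (Sum.inr (v, b) : (V × Fin q) ⊕ (V × V)) * Gm S g x ≤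
      ∑ S : Finset V, y ^ S.card * (S.card * Gm S g x) := by
    refine Finset.sum_le_sum fun S _ => mul_le_mul_of_nonneg_left ?_ (pow_nonneg hy0 _)
    have : ∀ v ∈ S, ∑ b ∈ Sᶜ, mrate G q θ (Sum.inr (v, b) : (V × Fin q) ⊕ (V × V)) *
        Gm S g x ≤ Gm S g x := by
      intro v _
      rw [← Finset.sum_mul]
      have h2 : ∑ b ∈ Sᶜ, mrate G q θ (Sum.inr (v, b) : (V × Fin q) ⊕ (V × V)) ≤ 1 := by
        refine le_trans ?_ (mr_row h v)
        exact Finset.sum_le_sum_of_subset_of_nonneg (Finset.subset_univ _)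
          fun b _ _ => mr_nonneg h _
      have h3 := Gm_nonneg S g x
      nlinarith
    refine (Finset.sum_le_sum this).trans (le_of_eq ?_)
    rw [Finset.sum_const, nsmul_eq_mul]
  have e5 : ∀ S : Finset V, y ^ S.card * (S.card : ℝ) = (S.card : ℝ) * y ^ (S.card - 1) * y := by
    intro S
    rcases Nat.eq_zero_or_pos S.card with hS | hS
    · rw [hS]; simp
    · have h2 : y ^ S.card = y ^ (S.card - 1) * y := by
        rw [← pow_succ]
        congr 1
        omega
      rw [h2]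
      ring
  have e6 : ∑ S : Finset V, ((S.card : ℝ) * y ^ (S.card - 1) * κ) * Gm S g x +
      ∑ S : Finset V, y ^ S.card * ((1 + lam) * Δ * (S.card * Gm S g x)) +
      ∑ S : Finset V, y ^ S.card * (S.card * Gm S g x) -
      θ / 8 * ∑ S : Finset V, (S.card : ℝ) * y ^ (S.card - 1) * Gm S g x =
      ∑ S : Finset V, ((S.card : ℝ) * y ^ (S.card - 1) * Gm S g x) *
        (κ + y * ((1 + lam) * Δ + 1) - θ / 8) := by
    rw [Finset.mul_sum, ← Finset.sum_add_distrib, ← Finset.sum_add_distrib,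
      ← Finset.sum_sub_distrib]
    refine Finset.sum_congr rfl fun S _ => ?_
    have h2 : y ^ S.card * ((1 + lam) * Δ * (S.card * Gm S g x)) =
        (y ^ S.card * (S.card : ℝ)) * ((1 + lam) * Δ * Gm S g x) := by ring
    have h3 : y ^ S.card * (S.card * Gm S g x) = (y ^ S.card * (S.card : ℝ)) * Gm S g x := by
      ring
    rw [h2, h3, e5]
    ring
  have e7 : κ + y * ((1 + lam) * Δ + 1) - θ / 8 ≤ 0 := by
    have hΔ : (0 : ℝ) ≤ Δ := Nat.cast_nonneg _
    have h2 : y * ((1 + lam) * Δ + 1) ≤ κ * ((1 + lam) * Δ + 1) :=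
      mul_le_mul_of_nonneg_right hy (by positivity)
    nlinarith
  have e8 : ∑ S : Finset V, ((S.card : ℝ) * y ^ (S.card - 1) * Gm S g x) *
        (κ + y * ((1 + lam) * Δ + 1) - θ / 8) ≤ 0 := by
    apply Finset.sum_nonpos
    intro S _
    apply mul_nonpos_of_nonneg_of_nonpos _ e7
    have := Gm_nonneg S g x
    positivity
  linarith

end flow

/-- RP -/
theorem rp (h0 : S_C0) (h1 : S_C1) : S_RP := by
  intro q θ Δ hq ht0 ht1
  have hqpos : (0 : ℝ) < q := by
    have : 0 < q := by omega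
    exact_mod_cast this
  have hq1 : (1 : ℝ) ≤ q := by
    have : 1 ≤ q := by omega
    exact_mod_cast this
  have hΔ : (0 : ℝ) ≤ Δ := Nat.cast_nonneg _
  obtain ⟨lam, hlam⟩ : ∃ lam : ℝ, lam = 32 * (q : ℝ) ^ 3 / θ := ⟨_, rfl⟩
  have hl : 0 < lam := by rw [hlam]; positivity
  have hlq : 4 * (q : ℝ) ^ 3 / lam = θ / 8 := by
    rw [hlam]
    field_simp
    norm_num
  have hden : 0 < 2 + Δ + lam * Δ := by positivity
  obtain ⟨κ1, hκ1⟩ : ∃ κ1 : ℝ, κ1 = θ / 8 / (2 + Δ + lam * Δ) := ⟨_, rfl⟩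
  have hκ1p : 0 < κ1 := by rw [hκ1]; positivity
  have hκ1m : κ1 * (2 + Δ + lam * Δ) ≤ θ / 8 := by
    rw [hκ1, div_mul_cancel₀ _ hden.ne']
  have hκ1le : κ1 ≤ 1 := by
    have h2 : κ1 * 2 ≤ κ1 * (2 + Δ + lam * Δ) := by
      apply mul_le_mul_of_nonneg_left _ hκ1p.le
      have : 0 ≤ lam * Δ := by positivity
      linarith
    linarith
  refine ⟨κ1 / (q : ℝ) ^ 2, by positivity, ?_, ?_⟩
  · rw [div_le_one (by positivity)]
    have : (1 : ℝ) ≤ (q : ℝ) ^ 2 := one_le_pow₀ hq1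
    linarith
  intro V _ _ G h f hf x
  set r := mrate G q θ with hr
  set N2 : ℝ := (Fintype.card ((V → Fin q) × (V → Fin q)) : ℝ) with hN2
  have hN2p : 0 < N2 := by
    have : Nonempty ((V → Fin q) × (V → Fin q)) := ⟨(x, x)⟩
    rw [hN2]
    exact_mod_cast Fintype.card_pos
  let H : ℝ → (V → Fin q) → ℝ := fun u z =>
    ∑ S : Finset V, (κ1 * u) ^ S.card * Gm S (pt G q θ u f) z
  let H' : ℝ → (V → Fin q) → ℝ := fun u z =>
    ∑ S : Finset V, (((S.card : ℝ) * (κ1 * u) ^ (S.card - 1) * κ1) * Gm S (pt G q θ u f) z +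
      (κ1 * u) ^ S.card * ∑ p : (V → Fin q) × (V → Fin q), 2 * Dl S p.1 p.2 (pt G q θ u f) z *
        Dl S p.1 p.2 (gf r (act (V := V) (q := q)) (pt G q θ u f)) z)
  have hH : ∀ u z, HasDerivAt (fun u => H u z) (H' u z) u := by
    intro u z
    apply HasDerivAt.fun_sum
    intro S _
    have hy : HasDerivAt (fun u : ℝ => (κ1 * u) ^ S.card)
        ((S.card : ℝ) * (κ1 * u) ^ (S.card - 1) * κ1) u := by
      have h2 : HasDerivAt (fun u : ℝ => κ1 * u) κ1 u := by
        simpa using (hasDerivAt_id u).const_mul κ1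
      exact h2.fun_pow S.card
    have hG : HasDerivAt (fun u => Gm S (pt G q θ u f) z)
        (∑ p : (V → Fin q) × (V → Fin q), 2 * Dl S p.1 p.2 (pt G q θ u f) z *
        Dl S p.1 p.2 (gf r (act (V := V) (q := q)) (pt G q θ u f)) z) u := by
      unfold Gm
      apply HasDerivAt.fun_sum
      intro p _
      have h2 := (Dl_deriv (G := G) (θ := θ) S p.1 p.2 f z u).fun_pow 2
      simpa using h2
    exact hy.mul hG
  let Φ : ℝ → ℝ := fun u => sg r (act (V := V) (q := q)) (1 - u) (H u) x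
  have hΦ : ∀ u, HasDerivAt Φ (sg r (act (V := V) (q := q)) (1 - u)
      (fun z => H' u z - gf r (act (V := V) (q := q)) (H u) z) x) u := fun u =>
    sg_flow r (act (V := V) (q := q)) H (H' u) x u 1 (hH u)
  have hanti : AntitoneOn Φ (Set.Icc 0 1) := by
    apply antitoneOn_of_deriv_nonpos (convex_Icc 0 1)
    · exact fun u _ => (hΦ u).continuousAt.continuousWithinAt
    · exact fun u _ => (hΦ u).differentiableAt.differentiableWithinAt
    · intro u hu
      rw [interior_Icc] at hu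
      rw [(hΦ u).deriv]
      have h2 := p_mk.mono (V → Fin q) ((V × Fin q) ⊕ (V × V)) r (act (V := V) (q := q))
        (fun z => H' u z - gf r (act (V := V) (q := q)) (H u) z) (fun _ => 0) x (1 - u)
        (mr_nonneg h) (by linarith [hu.2]) (fun z => by
          apply total h0 h1 h hl hlq hκ1m (by have := hu.1; positivity) _ (pt G q θ u f) z
          have := hu.2.le
          nlinarith)
      rw [p_mk.cst] at h2
      exact h2
  have h10 : Φ 1 ≤ Φ 0 := hanti (by simp) (by simp) zero_le_one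
  have hΦ1 : Φ 1 = ∑ S : Finset V, κ1 ^ S.card * Gm S (pt G q θ 1 f) x := by
    simp only [Φ, sub_self]
    rw [p_mk.zero]
    simp only [H, mul_one]
  have hΦ0 : Φ 0 ≤ N2 := by
    simp only [Φ, sub_zero]
    have h2 := p_mk.mono (V → Fin q) ((V × Fin q) ⊕ (V × V)) r (act (V := V) (q := q))
      (H 0) (fun _ => N2) x 1 (mr_nonneg h) zero_le_one (fun z => by
        simp only [H]
        rw [Finset.sum_eq_single ∅]
        · have h3 : pt G q θ 0 f = f := p_mk.zero _ _ _ _ _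
          rw [h3]
          have h4 : ∀ p : (V → Fin q) × (V → Fin q), (Dl ∅ p.1 p.2 f z) ^ 2 ≤ 1 := by
            intro p
            have h5 : Dl ∅ p.1 p.2 f z = f z := by
              have h6 : mix (∅ : Finset V) ∅ p.1 p.2 z = z := by
                funext a
                simp [mix]
              simp [Dl, h6]
            rw [h5, ← sq_abs]
            exact pow_le_one₀ (abs_nonneg _) (hf z)
          have h5 : Gm ∅ f z ≤ N2 := by
            unfold Gm
            refine (Finset.sum_le_sum fun p _ => h4 p).trans (le_of_eq ?_)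
            simp [hN2]
          simpa using h5
        · intro S _ hS
          have : S.card ≠ 0 := by
            rw [Ne, Finset.card_eq_zero]
            exact hS
          rw [mul_zero, zero_pow this, zero_mul]
        · intro hcon
          exact absurd (Finset.mem_univ _) hcon)
    rw [p_mk.cst] at h2
    exact h2
  have hfin : N2 * ∑ S : Finset V, (κ1 / (q : ℝ) ^ 2) ^ S.card * (osc S (pt G q θ 1 f) x) ^ 2 ≤
      N2 * 1 := by
    rw [mul_one]
    refine le_trans ?_ (h10.trans hΦ0)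
    rw [hΦ1, Finset.mul_sum]
    refine Finset.sum_le_sum fun S _ => ?_
    have h2 := osc_le h0 S (pt G q θ 1 f) x
    have h3 : (0 : ℝ) ≤ (κ1 / (q : ℝ) ^ 2) ^ S.card := by positivity
    have h4 := mul_le_mul_of_nonneg_left h2 h3
    have h5 : (κ1 / (q : ℝ) ^ 2) ^ S.card * (((q : ℝ) ^ 2) ^ S.card * Gm S (pt G q θ 1 f) x) =
        κ1 ^ S.card * Gm S (pt G q θ 1 f) x := by
      rw [← mul_assoc, ← mul_pow, div_mul_cancel₀ _ (by positivity)]
    rw [h5] at h4
    refine le_trans (le_of_eq ?_) h4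
    ring
  exact le_of_mul_le_mul_left hfin hN2p

end Pool.Agent.Y448.U
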