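import Pool.Agent.Y202.U.Stm

set_option autoImplicit false

/-!
# Y202-U, RP: combinatorial part
-/

namespace Pool.Agent.Y448.U

open Finset Pool.Agent.W788.NV Pool.Agent.Y202.U

theorem inj_le {A K : Type} [Fintype A] [Fintype K] [DecidableEq A] [DecidableEq K] (φ : A → A) (k : A → K)
    (hinj : Function.Injective (fun a => (φ a, k a))) (h : A → ℝ) (h0 : ∀ a, 0 ≤ h a) :
    ∑ a, h (φ a) ≤ (Fintype.card K : ℝ) * ∑ a, h a := by
  have e1 : ∑ a, h (φ a) = ∑ z ∈ univ.image (fun a => (φ a, k a)), h z.1 := by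
    rw [Finset.sum_image (fun x _ y _ hxy => hinj hxy)]
  rw [e1]
  refine (Finset.sum_le_sum_of_subset_of_nonneg (Finset.subset_univ _)
    (fun z _ _ => h0 z.1)).trans (le_of_eq ?_)
  rw [Fintype.sum_prod_type]
  simp [Finset.mul_sum]

/-- reindexing -/
theorem reind1 {V : Type} [Fintype V] [DecidableEq V] (y : ℝ) (H : Finset V → ℝ) :
    ∑ S : Finset V, y ^ S.card * ∑ v ∈ Sᶜ, H (insert v S) =
      ∑ S : Finset V, (S.card : ℝ) * y ^ (S.card - 1) * H S := by
  have e1 : ∀ S : Finset V, y ^ S.card * ∑ v ∈ Sᶜ, H (insert v S) =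
      ∑ v, if v ∉ S then y ^ S.card * H (insert v S) else 0 := by
    intro S
    rw [Finset.mul_sum, ← Finset.sum_filter]
    apply Finset.sum_congr _ fun _ _ => rfl
    ext v
    simp
  have e2 : ∀ S : Finset V, (S.card : ℝ) * y ^ (S.card - 1) * H S =
      ∑ v, if v ∈ S then y ^ (S.card - 1) * H S else 0 := by
    intro S
    rw [← Finset.sum_filter, Finset.sum_const, nsmul_eq_mul]
    have : (univ.filter fun v => v ∈ S) = S := by ext v; simp
    rw [this]
    ring
  rw [Finset.sum_congr rfl fun S _ => e1 S, Finset.sum_congr rfl fun S _ => e2 S,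
    Finset.sum_comm, Finset.sum_comm (s := univ) (t := univ)
      (f := fun S v => if v ∈ S then y ^ (S.card - 1) * H S else 0)]
  refine Finset.sum_congr rfl fun v _ => ?_
  rw [← Finset.sum_filter, ← Finset.sum_filter]
  refine Finset.sum_nbij' (fun S => insert v S) (fun S => S.erase v) ?_ ?_ ?_ ?_ ?_
  · intro S hS; simp
  · intro S hS; simp
  · intro S hS
    have : v ∉ S := by simpa using hS
    exact Finset.erase_insert this
  · intro S hS
    have : v ∈ S := by simpa using hS
    exact Finset.insert_erase this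
  · intro S hS
    have : v ∉ S := by simpa using hS
    rw [Finset.card_insert_of_notMem this]
    simp

theorem ite_form {V : Type} [Fintype V] [DecidableEq V] (S : Finset V) (f : V → V → ℝ) :
    ∑ b ∈ S, ∑ v ∈ Sᶜ, f b v = ∑ b, ∑ v, if b ∈ S ∧ v ∉ S then f b v else 0 := by
  have e1 : ∀ b, (∑ v, if b ∈ S ∧ v ∉ S then f b v else 0) =
      if b ∈ S then ∑ v ∈ Sᶜ, f b v else 0 := by
    intro b
    by_cases hb : b ∈ S
    · rw [if_pos hb, ← Finset.sum_filter]
      apply Finset.sum_congr _ fun _ _ => rfl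
      ext v
      simp [hb]
    · rw [if_neg hb]
      apply Finset.sum_eq_zero
      intro v _
      rw [if_neg fun h => hb h.1]
  rw [Finset.sum_congr rfl fun b _ => e1 b, ← Finset.sum_filter]
  apply Finset.sum_congr _ fun _ _ => rfl
  ext v
  simp

theorem reind2 {V : Type} [Fintype V] [DecidableEq V] (y : ℝ) (m : V → V → ℝ)
    (H : Finset V → ℝ) :
    ∑ S : Finset V, y ^ S.card * ∑ b ∈ S, ∑ v ∈ Sᶜ, m v b * H (insert v (S.erase b)) =
      ∑ S : Finset V, y ^ S.card * ∑ v ∈ S, ∑ b ∈ Sᶜ, m v b * H S := by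
  have e1 : ∀ S : Finset V, y ^ S.card * ∑ b ∈ S, ∑ v ∈ Sᶜ, m v b * H (insert v (S.erase b)) =
      ∑ b, ∑ v, if b ∈ S ∧ v ∉ S then y ^ S.card * (m v b * H (insert v (S.erase b))) else 0 := by
    intro S
    rw [Finset.mul_sum]
    rw [← ite_form]
    exact Finset.sum_congr rfl fun b _ => Finset.mul_sum _ _ _
  have e2 : ∀ S : Finset V, y ^ S.card * ∑ v ∈ S, ∑ b ∈ Sᶜ, m v b * H S =
      ∑ b, ∑ v, if v ∈ S ∧ b ∉ S then y ^ S.card * (m v b * H S) else 0 := by
    intro S
    rw [Finset.mul_sum, Finset.sum_comm, ← ite_form]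
    exact Finset.sum_congr rfl fun b _ => Finset.mul_sum _ _ _
  rw [Finset.sum_congr rfl fun S _ => e1 S, Finset.sum_congr rfl fun S _ => e2 S,
    Finset.sum_comm, Finset.sum_comm (s := univ) (t := univ)
      (f := fun S b => ∑ v, if v ∈ S ∧ b ∉ S then y ^ S.card * (m v b * H S) else 0)]
  refine Finset.sum_congr rfl fun b _ => ?_
  rw [Finset.sum_comm, Finset.sum_comm (s := univ) (t := univ)
      (f := fun S v => if v ∈ S ∧ b ∉ S then y ^ S.card * (m v b * H S) else 0)]
  refine Finset.sum_congr rfl fun v _ => ?_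
  rw [← Finset.sum_filter, ← Finset.sum_filter]
  by_cases hvb : v = b
  · subst hvb
    rw [Finset.sum_eq_zero, Finset.sum_eq_zero]
    · intro S hS
      have := (Finset.mem_filter.1 hS).2
      exact absurd this.1 this.2
    · intro S hS
      have := (Finset.mem_filter.1 hS).2
      exact absurd this.1 this.2
  refine Finset.sum_nbij' (fun S => insert v (S.erase b)) (fun S => insert b (S.erase v))
    ?_ ?_ ?_ ?_ ?_
  · intro S hS
    have h1 := (Finset.mem_filter.1 hS).2
    rw [Finset.mem_filter]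
    refine ⟨Finset.mem_univ _, Finset.mem_insert_self _ _, ?_⟩
    rw [Finset.mem_insert, not_or]
    exact ⟨fun h => hvb h.symm, Finset.notMem_erase _ _⟩
  · intro S hS
    have h1 := (Finset.mem_filter.1 hS).2
    rw [Finset.mem_filter]
    refine ⟨Finset.mem_univ _, Finset.mem_insert_self _ _, ?_⟩
    rw [Finset.mem_insert, not_or]
    exact ⟨hvb, Finset.notMem_erase _ _⟩
  · intro S hS
    have h1 := (Finset.mem_filter.1 hS).2
    have h2 : v ∉ S.erase b := fun h => h1.2 (Finset.mem_of_mem_erase h)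
    rw [Finset.erase_insert h2, Finset.insert_erase h1.1]
  · intro S hS
    have h1 := (Finset.mem_filter.1 hS).2
    have h2 : b ∉ S.erase v := fun h => h1.2 (Finset.mem_of_mem_erase h)
    rw [Finset.erase_insert h2, Finset.insert_erase h1.1]
  · intro S hS
    have h1 := (Finset.mem_filter.1 hS).2
    have h2 : v ∉ S.erase b := fun h => h1.2 (Finset.mem_of_mem_erase h)
    have h3 : (insert v (S.erase b)).card = S.card := by
      rw [Finset.card_insert_of_notMem h2, Finset.card_erase_of_mem h1.1]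
      have := Finset.card_pos.2 ⟨b, h1.1⟩
      omega
    rw [h3]

/-- averaging over one coordinate -/
theorem upd_sum {V : Type} [Fintype V] [DecidableEq V] {q : ℕ} (v : V) (k : (V → Fin q) → ℝ) :
    ∑ c : V → Fin q, ∑ d : Fin q, k (Function.update c v d) = q * ∑ c, k c := by
  have e1 : ∑ c : V → Fin q, ∑ d : Fin q, k (Function.update c v d) =
      ∑ z : (V → Fin q) × Fin q, k (Function.update z.1 v z.2) := by
    rw [Fintype.sum_prod_type]
  have e2 : ∑ z : (V → Fin q) × Fin q, k z.1 = q * ∑ c, k c := by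
    rw [Fintype.sum_prod_type]
    simp [Finset.mul_sum]
  rw [e1, ← e2]
  refine Finset.sum_nbij' (fun z => (Function.update z.1 v z.2, z.1 v))
    (fun z => (Function.update z.1 v z.2, z.1 v)) ?_ ?_ ?_ ?_ ?_
  · intro z _; exact Finset.mem_univ _
  · intro z _; exact Finset.mem_univ _
  · rintro ⟨c, d⟩ _; simp
  · rintro ⟨c, d⟩ _; simp
  · rintro ⟨c, d⟩ _; rfl

/-- sum of the squares of the mixed differences -/
noncomputable def Gm {V : Type} [Fintype V] [DecidableEq V] {q : ℕ} (S : Finset V)
    (g : (V → Fin q) → ℝ) (x : V → Fin q) : ℝ :=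
  ∑ p : (V → Fin q) × (V → Fin q), (Dl S p.1 p.2 g x) ^ 2

theorem Gm_nonneg {V : Type} [Fintype V] [DecidableEq V] {q : ℕ} (S : Finset V)
    (g : (V → Fin q) → ℝ) (x : V → Fin q) : 0 ≤ Gm S g x :=
  Finset.sum_nonneg fun _ _ => sq_nonneg _

section rules

variable {V : Type} [Fintype V] [DecidableEq V] {q : ℕ}

/-- the values of the colours outside of `S` do not matter -/
theorem Dl_congr (h0 : S_C0) {S : Finset V} {c c' d d' : V → Fin q}
    (h : ∀ a ∈ S, d a = c a ∧ d' a = c' a) (f : (V → Fin q) → ℝ) (x : V → Fin q) :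
    Dl S d d' f x = Dl S c c' f x := (h0 V q S c c' f x).2.2.1 d d' h

/-- a difference in one more site -/
theorem Dl_insert (h0 : S_C0) {S : Finset V} {v : V} (hv : v ∉ S) (c c' : V → Fin q)
    (f : (V → Fin q) → ℝ) (x : V → Fin q) :
    Dl (insert v S) c c' f x =
      Dl S c c' f (Function.update x v (c v)) - Dl S c c' f (Function.update x v (c' v)) :=
  (h0 V q S c c' f x).1 v hv

/-- the colours at a site outside of `S` do not matter -/
theorem Dl_upd1 (h0 : S_C0) {S : Finset V} {v : V} (hv : v ∉ S) (c c' : V → Fin q) (d : Fin q)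
    (f : (V → Fin q) → ℝ) (x : V → Fin q) :
    Dl S (Function.update c v d) c' f x = Dl S c c' f x := by
  apply Dl_congr h0
  intro a ha
  have : a ≠ v := fun h => hv (h ▸ ha)
  exact ⟨Function.update_of_ne this _ _, rfl⟩

theorem Dl_upd2 (h0 : S_C0) {S : Finset V} {v : V} (hv : v ∉ S) (c c' : V → Fin q) (d : Fin q)
    (f : (V → Fin q) → ℝ) (x : V → Fin q) :
    Dl S c (Function.update c' v d) f x = Dl S c c' f x := by
  apply Dl_congr h0
  intro a ha
  have : a ≠ v := fun h => hv (h ▸ ha)
  exact ⟨rfl, Function.update_of_ne this _ _⟩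

/-- (a): noise at `v` controls the differences over `insert v S` -/
theorem noise_le (h0 : S_C0) {S : Finset V} {v : V} (hv : v ∉ S) (g : (V → Fin q) → ℝ)
    (x : V → Fin q) :
    (q : ℝ) * Gm (insert v S) g x ≤ 4 * ∑ p : (V → Fin q) × (V → Fin q), ∑ d : Fin q,
      (Dl S p.1 p.2 g (Function.update x v d) - Dl S p.1 p.2 g x) ^ 2 := by
  set D : (V → Fin q) → (V → Fin q) → Fin q → ℝ := fun c c' d =>
    Dl S c c' g (Function.update x v d) - Dl S c c' g x with hD
  have h1 : ∀ p : (V → Fin q) × (V → Fin q), (Dl (insert v S) p.1 p.2 g x) ^ 2 ≤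
      2 * (D p.1 p.2 (p.1 v)) ^ 2 + 2 * (D p.1 p.2 (p.2 v)) ^ 2 := by
    intro p
    rw [Dl_insert h0 hv]
    simp only [hD]
    nlinarith [sq_nonneg ((Dl S p.1 p.2 g (Function.update x v (p.1 v)) - Dl S p.1 p.2 g x) +
      (Dl S p.1 p.2 g (Function.update x v (p.2 v)) - Dl S p.1 p.2 g x))]
  have h2 : (q : ℝ) * ∑ p : (V → Fin q) × (V → Fin q), (D p.1 p.2 (p.1 v)) ^ 2 =
      ∑ p : (V → Fin q) × (V → Fin q), ∑ d, (D p.1 p.2 d) ^ 2 := by
    rw [Fintype.sum_prod_type_right, Fintype.sum_prod_type_right, Finset.mul_sum]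
    refine Finset.sum_congr rfl fun c' _ => ?_
    rw [← upd_sum v (fun c => (D c c' (c v)) ^ 2)]
    refine Finset.sum_congr rfl fun c _ => Finset.sum_congr rfl fun d _ => ?_
    simp only [hD, Dl_upd1 h0 hv, Function.update_self]
  have h3 : (q : ℝ) * ∑ p : (V → Fin q) × (V → Fin q), (D p.1 p.2 (p.2 v)) ^ 2 =
      ∑ p : (V → Fin q) × (V → Fin q), ∑ d, (D p.1 p.2 d) ^ 2 := by
    rw [Fintype.sum_prod_type, Fintype.sum_prod_type, Finset.mul_sum]
    refine Finset.sum_congr rfl fun c _ => ?_
    rw [← upd_sum v (fun c' => (D c c' (c' v)) ^ 2)]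
    refine Finset.sum_congr rfl fun c' _ => Finset.sum_congr rfl fun d _ => ?_
    simp only [hD, Dl_upd2 h0 hv, Function.update_self]
  have h4 : Gm (insert v S) g x ≤
      2 * ∑ p : (V → Fin q) × (V → Fin q), (D p.1 p.2 (p.1 v)) ^ 2 +
      2 * ∑ p : (V → Fin q) × (V → Fin q), (D p.1 p.2 (p.2 v)) ^ 2 := by
    rw [Finset.mul_sum, Finset.mul_sum, ← Finset.sum_add_distrib]
    exact Finset.sum_le_sum fun p _ => h1 p
  have h5 := mul_le_mul_of_nonneg_left h4 (Nat.cast_nonneg (α := ℝ) q)
  rw [mul_add, mul_left_comm, h2, mul_left_comm, h3] at h5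
  linarith

/-- (b): transport -/
theorem transport_le (h0 : S_C0) {S : Finset V} {b v : V} (hb : b ∈ S) (hv : v ∉ S)
    (g : (V → Fin q) → ℝ) (x : V → Fin q) :
    ∑ p : (V → Fin q) × (V → Fin q), (Dl (insert v (S.erase b)) (Function.update p.1 v (p.1 b))
      (Function.update p.2 v (p.2 b)) g x) ^ 2 ≤ Gm (insert v (S.erase b)) g x := by
  have hbv : b ≠ v := fun h => hv (h ▸ hb)
  have h1 : ∀ p : (V → Fin q) × (V → Fin q), Dl (insert v (S.erase b))
      (Function.update p.1 v (p.1 b)) (Function.update p.2 v (p.2 b)) g x =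
      Dl (insert v (S.erase b)) (p.1 ∘ Equiv.swap b v) (p.2 ∘ Equiv.swap b v) g x := by
    intro p
    apply Dl_congr h0
    intro a ha
    rw [Finset.mem_insert, Finset.mem_erase] at ha
    rcases ha with rfl | ⟨ha1, ha2⟩
    · simp
    · have hav : a ≠ v := fun h => hv (h ▸ ha2)
      simp only [Function.comp_apply, Equiv.swap_apply_of_ne_of_ne ha1 hav,
        Function.update_of_ne hav]
      exact ⟨trivial, trivial⟩
  simp only [h1]
  have h2 := inj_le (A := (V → Fin q) × (V → Fin q)) (K := Unit)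
    (fun p => (p.1 ∘ Equiv.swap b v, p.2 ∘ Equiv.swap b v)) (fun _ => ())
    (by
      intro p p' h
      simp only [Prod.mk.injEq] at h
      obtain ⟨⟨h1, h2⟩, _⟩ := h
      refine Prod.ext ?_ ?_
      · funext a
        have := congrFun h1 (Equiv.swap b v a)
        simpa using this
      · funext a
        have := congrFun h2 (Equiv.swap b v a)
        simpa using this)
    (fun p => (Dl (insert v (S.erase b)) p.1 p.2 g x) ^ 2) (fun _ => sq_nonneg _)
  simpa [Gm] using h2

/-- (c): the first term -/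
theorem J1_le {S : Finset V} {b v : V} (hb : b ∈ S) (hv : v ∉ S)
    (g : (V → Fin q) → ℝ) (x : V → Fin q) :
    ∑ p : (V → Fin q) × (V → Fin q), (Dl (insert v S) (Function.update p.1 v (p.1 b))
      (Function.update (Function.update p.2 b (x b)) v (x b)) g x) ^ 2 ≤
      (q : ℝ) ^ 3 * Gm (insert v S) g x := by
  have hbv : b ≠ v := fun h => hv (h ▸ hb)
  have h2 := inj_le (A := (V → Fin q) × (V → Fin q)) (K := Fin q × (Fin q × Fin q))
    (fun p => (Function.update p.1 v (p.1 b),
      Function.update (Function.update p.2 b (x b)) v (x b)))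
    (fun p => (p.1 v, (p.2 b, p.2 v)))
    (by
      intro p p' h
      simp only [Prod.mk.injEq] at h
      obtain ⟨⟨h1, h2⟩, h3, h4, h5⟩ := h
      refine Prod.ext ?_ ?_
      · funext a
        by_cases ha : a = v
        · rw [ha]; exact h3
        · have := congrFun h1 a
          simpa [Function.update_of_ne ha] using this
      · funext a
        by_cases ha : a = v
        · rw [ha]; exact h5
        · by_cases ha' : a = b
          · rw [ha']; exact h4
          · have := congrFun h2 a
            simpa [Function.update_of_ne ha, Function.update_of_ne ha'] using this)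
    (fun p => (Dl (insert v S) p.1 p.2 g x) ^ 2) (fun _ => sq_nonneg _)
  have h3 : (Fintype.card (Fin q × (Fin q × Fin q)) : ℝ) = (q : ℝ) ^ 3 := by
    simp; ring
  rw [h3] at h2
  exact h2

/-- (c): the second term -/
theorem J2_le {S : Finset V} {b v : V} (hb : b ∈ S) (hv : v ∉ S)
    (g : (V → Fin q) → ℝ) (x : V → Fin q) :
    ∑ p : (V → Fin q) × (V → Fin q), (Dl (insert v S)
      (Function.update (Function.update p.1 b (p.2 b)) v (p.2 b))
      (Function.update (Function.update p.2 b (x b)) v (x b)) g x) ^ 2 ≤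
      (q : ℝ) ^ 3 * Gm (insert v S) g x := by
  have hbv : b ≠ v := fun h => hv (h ▸ hb)
  have h2 := inj_le (A := (V → Fin q) × (V → Fin q)) (K := Fin q × (Fin q × Fin q))
    (fun p => (Function.update (Function.update p.1 b (p.2 b)) v (p.2 b),
      Function.update (Function.update p.2 b (x b)) v (x b)))
    (fun p => (p.1 b, (p.1 v, p.2 v)))
    (by
      intro p p' h
      simp only [Prod.mk.injEq] at h
      obtain ⟨⟨h1, h2⟩, h3, h4, h5⟩ := h
      refine Prod.ext ?_ ?_
      · funext a
        by_cases ha : a = v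
        · rw [ha]; exact h4
        · by_cases ha' : a = b
          · rw [ha']; exact h3
          · have := congrFun h1 a
            simpa [Function.update_of_ne ha, Function.update_of_ne ha'] using this
      · funext a
        by_cases ha : a = v
        · rw [ha]; exact h5
        · by_cases ha' : a = b
          · rw [ha']
            have := congrFun h1 b
            simpa [Function.update_of_ne hbv] using this
          · have := congrFun h2 a
            simpa [Function.update_of_ne ha, Function.update_of_ne ha'] using this)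
    (fun p => (Dl (insert v S) p.1 p.2 g x) ^ 2) (fun _ => sq_nonneg _)
  have h3 : (Fintype.card (Fin q × (Fin q × Fin q)) : ℝ) = (q : ℝ) ^ 3 := by
    simp; ring
  rw [h3] at h2
  exact h2

/-- the oscillation and the sum of squares -/
theorem osc_le (h0 : S_C0) (S : Finset V) (g : (V → Fin q) → ℝ) (x : V → Fin q) :
    (Fintype.card ((V → Fin q) × (V → Fin q)) : ℝ) * (osc S g x) ^ 2 ≤
      ((q : ℝ) ^ 2) ^ S.card * Gm S g x := by
  classical
  have hne : Nonempty ((V → Fin q) × (V → Fin q)) := ⟨(x, x)⟩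
  obtain ⟨p0, hp0⟩ := exists_eq_ciSup_of_finite
    (f := fun p : (V → Fin q) × (V → Fin q) => |Dl S p.1 p.2 g x|)
  have h1 : (osc S g x) ^ 2 = (Dl S p0.1 p0.2 g x) ^ 2 := by
    unfold osc
    rw [← hp0, sq_abs]
  rw [h1]
  have h2 := inj_le (A := (V → Fin q) × (V → Fin q))
    (K := ({a // a ∈ S} → Fin q) × ({a // a ∈ S} → Fin q))
    (fun p => (fun a => if a ∈ S then p0.1 a else p.1 a, fun a => if a ∈ S then p0.2 a else p.2 a))
    (fun p => (fun a => p.1 a.1, fun a => p.2 a.1))
    (by
      intro p p' h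
      simp only [Prod.mk.injEq] at h
      obtain ⟨⟨h1, h2⟩, h3, h4⟩ := h
      refine Prod.ext ?_ ?_
      · funext a
        by_cases ha : a ∈ S
        · exact congrFun h3 ⟨a, ha⟩
        · have := congrFun h1 a
          simpa [ha] using this
      · funext a
        by_cases ha : a ∈ S
        · exact congrFun h4 ⟨a, ha⟩
        · have := congrFun h2 a
          simpa [ha] using this)
    (fun p => (Dl S p.1 p.2 g x) ^ 2) (fun _ => sq_nonneg _)
  have h3 : ∀ p : (V → Fin q) × (V → Fin q), Dl S (fun a => if a ∈ S then p0.1 a else p.1 a)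
      (fun a => if a ∈ S then p0.2 a else p.2 a) g x = Dl S p0.1 p0.2 g x := by
    intro p
    apply Dl_congr h0
    intro a ha
    simp [ha]
  simp only [h3] at h2
  rw [Finset.sum_const, nsmul_eq_mul, Finset.card_univ] at h2
  refine h2.trans (le_of_eq ?_)
  have h4 : (Fintype.card (({a // a ∈ S} → Fin q) × ({a // a ∈ S} → Fin q)) : ℝ) =
      ((q : ℝ) ^ 2) ^ S.card := by
    rw [Fintype.card_prod, Fintype.card_fun, Fintype.card_fin, Fintype.card_coe]
    push_cast
    rw [← mul_pow]
    ring
  rw [h4]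
  rfl

end rules

end Pool.Agent.Y448.U
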